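import Mathlib
import Pool.Agent.H97R2.BP.Defs
import Pool.Agent.H97R2.BP.Defs2

set_option autoImplicit false

open scoped ComplexOrder InnerProductSpace ComplexConjugate TensorProduct
open Finset H759R2.Kad H710R2.DP

noncomputable section

namespace H97R2.BP

namespace ZZ431

variable {K : Type} [NormedAddCommGroup K] [InnerProductSpace ℂ K] [CompleteSpace K]

/-- A conjugate linear operator commuting with a selfadjoint `S` commutes with `cfcHom`. -/
theorem comm_cfcHom {S : K →L[ℂ] K} (hS : IsSelfAdjoint S) (A : K →L⋆[ℂ] K)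
    (hA : ∀ ξ, A (S ξ) = S (A ξ)) (f : C(spectrum ℝ S, ℝ)) :
    ∀ ξ, A (cfcHom hS f ξ) = cfcHom hS f (A ξ) := by
  induction f using ContinuousMap.induction_on_of_compact with
  | const r =>
    intro ξ
    have h : cfcHom hS (ContinuousMap.const (spectrum ℝ S) r) = algebraMap ℝ (K →L[ℂ] K) r := by
      have e : ContinuousMap.const (spectrum ℝ S) r = algebraMap ℝ _ r := rfl
      rw [e, AlgHomClass.commutes]
    rw [h, Algebra.algebraMap_eq_smul_one]
    simp only [smul_apply]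
    show A ((r : ℝ) • ξ) = (r : ℝ) • A ξ
    rw [← Complex.coe_smul, map_smulₛₗ, Complex.conj_ofReal, Complex.coe_smul]
  | id => intro ξ; rw [cfcHom_id hS]; exact hA ξ
  | star_id => intro ξ; rw [map_star, cfcHom_id hS, hS.star_eq]; exact hA ξ
  | add f g hf hg => intro ξ; rw [map_add]; simp only [add_apply, map_add, hf, hg]
  | mul f g hf hg =>
    intro ξ
    rw [map_mul]
    show A (cfcHom hS f (cfcHom hS g ξ)) = cfcHom hS f (cfcHom hS g (A ξ))
    rw [hf, hg]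
  | frequently f hf =>
    intro ξ
    have hcl : IsClosed {x : K →L[ℂ] K | A (x ξ) = x (A ξ)} :=
      isClosed_eq (by fun_prop) (by fun_prop)
    have h1 : cfcHom hS f ∈ closure {x : K →L[ℂ] K | A (x ξ) = x (A ξ)} :=
      mem_closure_of_frequently_of_tendsto (hf.mono fun g hg => hg ξ)
        ((cfcHom_continuous hS).tendsto f)
    rw [hcl.closure_eq] at h1
    exact h1

theorem comm_cfc {S : K →L[ℂ] K} (A : K →L⋆[ℂ] K)
    (hA : ∀ ξ, A (S ξ) = S (A ξ)) (f : ℝ → ℝ) (ξ : K) : A (cfc f S ξ) = cfc f S (A ξ) := by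
  apply cfc_cases (fun x : K →L[ℂ] K => A (x ξ) = x (A ξ)) S f
  · simp
  · intro hf ha
    exact comm_cfcHom ha A hA _ ξ

end ZZ431

open ZZ431

theorem bp_t1b : Z_t1b := by
  intro K _ _ _ N Ω R A h
  set S : K →L[ℂ] K := (2 : ℂ) • R - R * R with hSdef
  have hSA : ∀ ξ, S ξ = A (A ξ) := by
    intro ξ
    rw [h.sq, hSdef]
    simp
  have hin : ∀ ξ, ⟪S ξ, ξ⟫_ℂ = ⟪A ξ, A ξ⟫_ℂ := by
    intro ξ
    rw [hSA, h.asym]
  have hsym : ∀ ξ η, ⟪S ξ, η⟫_ℂ = ⟪ξ, S η⟫_ℂ := by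
    intro ξ η
    rw [hSA, hSA, h.asym, ← inner_conj_symm ξ, h.asym (A η) ξ, inner_conj_symm]
    
  have hpos : S.IsPositive := by
    refine ⟨?_, ?_⟩
    · intro x y
      exact hsym x y
    · intro ξ
      rw [ContinuousLinearMap.reApplyInnerSelf_apply, hin]
      exact inner_self_nonneg
  have hS0 : 0 ≤ S := (ContinuousLinearMap.nonneg_iff_isPositive S).2 hpos
  have hS : IsSelfAdjoint S := hS0.isSelfAdjoint
  have hspec : ∀ x ∈ spectrum ℝ S, 0 ≤ x := fun x hx => spectrum_nonneg_of_nonneg (𝕜 := ℝ) hS0 hx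
  set T : K →L[ℂ] K := cfc Real.sqrt S with hT
  have hT0 : 0 ≤ T := cfc_nonneg fun x _ => Real.sqrt_nonneg x
  have hTp : T.IsPositive := (ContinuousLinearMap.nonneg_iff_isPositive T).1 hT0
  have hTT : T * T = S := by
    rw [hT, ← cfc_mul Real.sqrt Real.sqrt S Real.continuous_sqrt.continuousOn
      Real.continuous_sqrt.continuousOn]
    have : cfc (fun x : ℝ => Real.sqrt x * Real.sqrt x) S = cfc (fun x : ℝ => x) S := by
      apply cfc_congr
      intro x hx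
      exact Real.mul_self_sqrt (hspec x hx)
    rw [this]
    exact cfc_id' ℝ S hS
  have hTT' : ∀ ξ, T (T ξ) = S ξ := fun ξ => by rw [← hTT]; rfl
  have htsa : ∀ ξ η, ⟪T ξ, η⟫_ℂ = ⟪ξ, T η⟫_ℂ := hTp.isSymmetric
  have htpos : ∀ ξ, 0 ≤ (⟪ξ, T ξ⟫_ℂ).re := fun ξ => hTp.re_inner_nonneg_right ξ
  have hTR : ∀ ξ, T (R ξ) = R (T ξ) := by
    intro ξ
    have hc : Commute S R := by
      rw [hSdef]
      exact ((Commute.refl R).smul_left _).sub_left ((Commute.refl R).mul_left (Commute.refl R))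
    have := hc.cfc_real Real.sqrt
    exact DFunLike.congr_fun this.eq ξ
  have hAS : ∀ ξ, A (S ξ) = S (A ξ) := fun ξ => by rw [hSA, hSA]
  have hAT : ∀ ξ, A (T ξ) = T (A ξ) := comm_cfc A hAS Real.sqrt
  have hSinj : ∀ ξ, S ξ = 0 → ξ = 0 := by
    intro ξ hξ
    apply h.inj2
    have h1 : R ((2 : ℂ) • ξ - R ξ) = 0 := by
      rw [← hξ, hSdef]; simp
    exact (sub_eq_zero.1 (h.inj _ h1)).symm
  have hTinj : ∀ ξ, T ξ = 0 → ξ = 0 := fun ξ hξ => hSinj ξ (by rw [← hTT', hξ, map_zero])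
  have hdense : DenseRange T := by
    have h1 : (LinearMap.range (T : K →ₗ[ℂ] K))ᗮ = ⊥ := by
      rw [eq_bot_iff]
      intro x hx
      rw [Submodule.mem_bot]
      apply hTinj
      rw [Submodule.mem_orthogonal'] at hx
      apply ext_inner_right ℂ
      intro y
      rw [htsa, inner_zero_left]
      exact hx _ ⟨y, rfl⟩
    have h2 := (Submodule.topologicalClosure_eq_top_iff).2 h1
    intro x
    have h3 : x ∈ (LinearMap.range (T : K →ₗ[ℂ] K)).topologicalClosure := by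
      rw [h2]; trivial
    exact h3
  have hnorm : ∀ ξ, ‖A ξ‖ = ‖T ξ‖ := by
    intro ξ
    have h1 : ⟪A ξ, A ξ⟫_ℂ = ⟪T ξ, T ξ⟫_ℂ := by rw [← hin, ← hTT', htsa]
    rw [inner_self_eq_norm_sq_to_K, inner_self_eq_norm_sq_to_K] at h1
    have h2 : ‖A ξ‖ ^ 2 = ‖T ξ‖ ^ 2 := by exact_mod_cast h1
    exact (sq_eq_sq₀ (norm_nonneg _) (norm_nonneg _)).1 h2
  let J0 : K →L⋆[ℂ] K := LinearMap.extendOfNorm (A : K →ₛₗ[starRingEnd ℂ] K) (T : K →ₗ[ℂ] K)
  have hb : ∀ x, ‖(A : K →ₛₗ[starRingEnd ℂ] K) x‖ ≤ 1 * ‖(T : K →ₗ[ℂ] K) x‖ := fun x => by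
    rw [one_mul]; exact (hnorm x).le
  have hJT : ∀ ξ, J0 (T ξ) = A ξ := fun ξ =>
    LinearMap.extendOfNorm_eq (e := (T : K →ₗ[ℂ] K)) hdense ⟨1, hb⟩ ξ
  have hJn : ∀ x, ‖J0 x‖ ≤ ‖x‖ := fun x => by
    have := LinearMap.norm_extendOfNorm_apply_le (e := (T : K →ₗ[ℂ] K)) hdense 1 hb x
    rwa [one_mul] at this
  have hJc : Continuous J0 := J0.continuous
  have hTc : Continuous T := T.continuous
  have hRc : Continuous R := R.continuous
  have hJT2 : ∀ x, J0 (T x) = T (J0 x) := by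
    refine hdense.induction ?_ (isClosed_eq (by fun_prop) (by fun_prop))
    rintro _ ⟨ξ, rfl⟩
    rw [hJT, hJT, hAT]
  have hJJ : ∀ x, J0 (J0 x) = x := by
    refine hdense.induction ?_ (isClosed_eq (by fun_prop) (by fun_prop))
    rintro _ ⟨ξ, rfl⟩
    apply sub_eq_zero.1
    apply hTinj
    rw [map_sub, sub_eq_zero, hJT, ← hJT2, hJT, hTT', hSA]
  have hJR : ∀ x, J0 (R x) = (2 : ℂ) • J0 x - R (J0 x) := by
    refine hdense.induction ?_ (isClosed_eq (by fun_prop) (by fun_prop))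
    rintro _ ⟨ξ, rfl⟩
    rw [← hTR, hJT, hJT, h.com]
  have hJn2 : ∀ x, ‖J0 x‖ = ‖x‖ := fun x => by
    apply le_antisymm (hJn x)
    calc ‖x‖ = ‖J0 (J0 x)‖ := by rw [hJJ]
      _ ≤ ‖J0 x‖ := hJn _
  let J : K ≃ₗᵢ⋆[ℂ] K :=
    { LinearEquiv.ofInvolutive (J0 : K →ₛₗ[starRingEnd ℂ] K) hJJ with
      norm_map' := fun x => hJn2 x }
  have hJJ0 : ∀ x, J x = J0 x := fun x => rfl
  refine ⟨T, J, ⟨htsa, htpos, ?_, hTR, ?_, ?_, ?_, ?_⟩, ?_⟩
  · intro ξ
    rw [hTT', hSA, h.sq]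
  · intro x
    rw [hJJ0, hJJ0, hJJ]
  · intro ξ
    rw [hJJ0, hJT]
  · intro ξ
    rw [hJJ0, ← hJT2, hJT]
  · intro ξ
    rw [hJJ0, hJJ0, hJR]
  · have h1 : T (T Ω) = Ω := by
      rw [hTT', hSA, h.om2, h.om2]
    have h2 : T Ω = Ω := by
      set v := T Ω - Ω with hv
      have h3 : T v + v = 0 := by
        rw [hv, map_sub, h1]; abel
      have h4 : (⟪v, T v⟫_ℂ).re + ‖v‖ ^ 2 = 0 := by
        have := congrArg (fun z => (⟪v, z⟫_ℂ).re) h3
        simp only [inner_add_right, inner_zero_right, Complex.add_re, Complex.zero_re] at this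
        rw [inner_self_eq_norm_sq_to_K] at this
        have e : (((‖v‖ : ℂ)) ^ 2).re = ‖v‖ ^ 2 := by norm_cast
        rw [← e]; exact this
      have h5 := htpos v
      have h6 : ‖v‖ ^ 2 ≤ 0 := by linarith
      have h7 : v = 0 := by
        rw [← norm_eq_zero]
        exact pow_eq_zero_iff (n := 2) (by norm_num) |>.1 (le_antisymm h6 (by positivity))
      exact sub_eq_zero.1 h7
    rw [hJJ0]
    conv_lhs => rw [← h2]
    rw [hJT, h.om2]

end H97R2.BP
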